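import Pool.Agent.Helper75.Reducts.Gen

/-!
# J9 : length of chains
-/

namespace Reducts

open Equiv MulAction
open scoped Pointwise

namespace Ctx

variable {M : Type*} [Group M] {X : Ctx M} {Ω : Type*} [MulAction M Ω] {Ω' : Type*}
  [MulAction M Ω']

theorem ext_cj {N C : Subgroup M} (hN : X.opn N) (hC : X.opn C) (m : M) :
    X.ext (cj m N) (cj m C) = cj m (X.ext N C) := by
  unfold ext
  rw [← cj_inf, conn_cj (X.opn_inf hN hC)]

/-- `Nb i` is connected along the chain. -/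
theorem chain_cn {N : Subgroup M} (hN : X.Cn N) (C : ℕ → Subgroup M) (hC : ∀ i, X.opn (C i))
    (Nb : ℕ → Subgroup M) (h0 : Nb 0 = N) (hs : ∀ i, Nb (i + 1) = X.ext (Nb i) (C i)) (i : ℕ) :
    X.Cn (Nb i) := by
  induction i with
  | zero => rw [h0]; exact hN
  | succ i ih => rw [hs]; exact cn_ext ih.opn (hC i)

theorem chain_exists (n : ℕ) : ∀ {a : Ω}, X.Cont a → ∀ {N : Subgroup M}, X.Cn N →
    ∀ {S : Finset ℕ}, X.Has S N → ∀ (C : ℕ → Subgroup M), (∀ i, X.opn (C i)) →
    ∀ (Nb : ℕ → Subgroup M), Nb 0 = N → (∀ i, Nb (i + 1) = X.ext (Nb i) (C i)) →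
    (∀ i < n, ¬ X.Ind (Nb i) a (C i)) → ∃ μ ∈ N, n ≤ (X.sp (μ • a) \ S).card := by
  classical
  induction n with
  | zero =>
    intro a _ N _ S _ C _ Nb _ _ _
    exact ⟨1, N.one_mem, Nat.zero_le _⟩
  | succ n ih =>
    intro a ha N hN S hS C hC Nb h0 hs hch
    -- the coset of `C 0`
    let c : M ⧸ C 0 := ((1 : M) : M ⧸ C 0)
    have hstab : stabilizer M c = C 0 := stabilizer_quotient (C 0)
    have hc : X.Cont c := by
      unfold Cont
      rw [hstab]
      exact hC 0
    obtain ⟨c', hc', hq, -⟩ := exists_good hN hS hc ∅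
    obtain ⟨ν, hν, rfl⟩ := hc'
    have hcn := chain_cn hN C hC Nb h0 hs
    have hc'' : X.Cont (ν • c) := hc.smul ν
    have hstab' : stabilizer M (ν • c) = cj ν (C 0) := by rw [stab_smul, hstab]
    have hC' : ∀ i, X.opn (cj ν (C i)) := fun i => X.opn_conj ν (hC i)
    have hNb1 : cj ν (Nb 1) = X.ext N (cj ν (C 0)) := by
      have h1 : Nb 1 = X.ext N (C 0) := by rw [← h0]; exact hs 0
      rw [h1, ← ext_cj hN.opn (hC 0), cj_of_mem hν]
    have hle : cj ν (Nb 1) ≤ N ⊓ cj ν (C 0) := by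
      rw [hNb1]
      exact ext_le hN.opn (hC' 0)
    have hHas : X.Has (S ∪ X.sp (ν • c)) (cj ν (Nb 1)) := by
      rw [hNb1]
      unfold ext
      apply has_conn (X.opn_inf hN.opn (hC' 0))
      refine (hS.mono Finset.subset_union_left le_rfl).inf ?_
      rw [← hstab']
      exact Has.mono (sup_sp hc'') Finset.subset_union_right le_rfl
    obtain ⟨μ, hμ, hcard⟩ := ih (a := ν • a) (ha.smul ν) (N := cj ν (Nb 1))
      ((hcn 1).cj ν) hHas (fun i => cj ν (C (i + 1))) (fun i => hC' (i + 1))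
      (fun i => cj ν (Nb (i + 1))) rfl
      (fun i => by
        show cj ν (Nb (i + 1 + 1)) = _
        rw [hs (i + 1), ext_cj (hcn (i + 1)).opn (hC (i + 1))])
      (fun i hi h => by
        apply hch (i + 1) (by omega)
        exact (ind_smul (hcn (i + 1)) ha ν).1 h)
    have hμ' := Subgroup.mem_inf.1 (hle hμ)
    refine ⟨μ * ν, N.mul_mem hμ'.1 hν, ?_⟩
    rw [mul_smul]
    -- an element of `sp c'` outside `S`
    have hex : ∃ i ∈ X.sp (ν • c), i ∉ S ∧ i ∈ X.sp (μ • ν • a) := by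
      by_contra hcon
      push Not at hcon
      have hgen : X.gen N (ν • c) = X.q (ν • c) S := by
        rw [gen_orb hN hc (smul_mem_orb hν c)]
        exact hq
      have hmem : (ν • c, μ • ν • a) ∈ orb N (ν • c, ν • a) := by
        refine ⟨μ, hμ'.1, ?_⟩
        have h1 : μ • ν • c = ν • c := by
          rw [← mem_stabilizer_iff, hstab']
          exact hμ'.2
        show (μ • ν • c, μ • ν • a) = _
        rw [h1]
      have h1 : X.Ind N (ν • c) (stabilizer M (ν • a)) :=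
        (ind_iff hN hS hc'' (ha.smul ν) (mem_orb_self N _) hgen
          (smul_mem_orb hμ'.1 _) hcon).2 hmem
      have h2 := ind_symm hN hc'' (ha.smul ν) h1
      rw [hstab'] at h2
      have h3 : X.Ind (cj ν N) (ν • a) (cj ν (C 0)) := by rwa [cj_of_mem hν]
      apply hch 0 (Nat.succ_pos n)
      rw [h0]
      exact (ind_smul hN ha ν).1 h3
    obtain ⟨i, hi, hiS, hia⟩ := hex
    have hsub : insert i (X.sp (μ • ν • a) \ (S ∪ X.sp (ν • c))) ⊆ X.sp (μ • ν • a) \ S := by
      intro j hj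
      rcases Finset.mem_insert.1 hj with rfl | hj
      · exact Finset.mem_sdiff.2 ⟨hia, hiS⟩
      · rw [Finset.mem_sdiff] at hj ⊢
        exact ⟨hj.1, fun h => hj.2 (Finset.mem_union_left _ h)⟩
    have hni : i ∉ X.sp (μ • ν • a) \ (S ∪ X.sp (ν • c)) := by
      intro h
      exact (Finset.mem_sdiff.1 h).2 (Finset.mem_union_right _ hi)
    have h1 := Finset.card_le_card hsub
    rw [Finset.card_insert_of_notMem hni] at h1
    omega

/-- J9 : length of chains. `Nb` is the iterated extension. -/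
theorem chain_bound {a : Ω} (ha : X.Cont a) {K : ℕ} (hK : ∀ m : M, (X.sp (m • a)).card ≤ K)
    {N : Subgroup M} (hN : X.Cn N) (C : ℕ → Subgroup M) (hC : ∀ i, X.opn (C i)) (n : ℕ)
    (Nb : ℕ → Subgroup M) (h0 : Nb 0 = N) (hs : ∀ i, Nb (i + 1) = X.ext (Nb i) (C i))
    (hch : ∀ i < n, ¬ X.Ind (Nb i) a (C i)) : n ≤ K := by
  classical
  obtain ⟨μ, -, h⟩ := chain_exists n ha hN (has_supp hN.opn) C hC Nb h0 hs hch
  exact h.trans ((Finset.card_le_card Finset.sdiff_subset).trans (hK μ))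

end Ctx

end Reducts
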